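import Mathlib

open scoped Manifold ContDiff Topology MatrixGroups

namespace Pool.Agent.Results.MP_2392aa_gt.NoGlobalLinear

/-- Euclidean space of dimension `n`. -/
abbrev E (n : ℕ) := EuclideanSpace ℝ (Fin n)

/-- The group `SL(n,ℤ)`, a lattice in `SL(n,ℝ)`. -/
def SLZ (n : ℕ) : Type := SL(n, ℤ)

/-- The group structure of `SL(n,ℤ)`. -/
@[reducible] def groupSLZ (n : ℕ) : Group (SLZ n) := (inferInstance : Group SL(n, ℤ))

attribute [instance] groupSLZ

section defs

variable (Γ : Type) {F M : Type} [Group Γ] [NormedAddCommGroup F] [NormedSpace ℝ F]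
  [TopologicalSpace M] [ChartedSpace F M] [MulAction Γ M]

/-- `M` is a smooth manifold modelled on `F` (Hausdorff, second countable, without boundary) on
which every element of `Γ` acts by a smooth map (hence by a diffeomorphism). -/
def SmoothAction (F M : Type) [NormedAddCommGroup F] [NormedSpace ℝ F]
    [TopologicalSpace M] [ChartedSpace F M] [MulAction Γ M] : Prop :=
  IsManifold 𝓘(ℝ, F) ∞ M ∧ T2Space M ∧ SecondCountableTopology M ∧
    ∀ γ : Γ, ContMDiff 𝓘(ℝ, F) 𝓘(ℝ, F) ∞ (fun x : M => γ • x)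

variable {Γ} in
/-- The derivative representation at `p`: the derivative at `p` of the action of `γ`. -/
noncomputable def derivRep (F : Type) {M : Type} [NormedAddCommGroup F] [NormedSpace ℝ F]
    [TopologicalSpace M] [ChartedSpace F M] [MulAction Γ M] (p : M) (γ : Γ) : F →L[ℝ] F :=
  mfderiv 𝓘(ℝ, F) 𝓘(ℝ, F) (fun x : M => γ • x) p

/-- The derivative representation of the stabiliser of `p` is unbounded. -/
def UnboundedDeriv (F : Type) {M : Type} [NormedAddCommGroup F] [NormedSpace ℝ F]
    [TopologicalSpace M] [ChartedSpace F M] [MulAction Γ M] (p : M) : Prop :=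
  ¬ ∃ C : ℝ, ∀ γ : Γ, γ • p = p → ‖derivRep F p γ‖ ≤ C

/-- There is an open neighbourhood `U` of `p`, invariant under the stabiliser of `p`, and a smooth
diffeomorphism `φ` of `U` onto the whole of `F` that carries the action of the stabiliser on `U` to
its linear action by the derivative representation. -/
def GloballyLinearNear (F : Type) {M : Type} [NormedAddCommGroup F] [NormedSpace ℝ F]
    [TopologicalSpace M] [ChartedSpace F M] [MulAction Γ M] (p : M) : Prop :=
  ∃ (U : TopologicalSpace.Opens M) (_ : p ∈ U)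
    (hU : ∀ γ : Γ, γ • p = p → ∀ x ∈ U, γ • x ∈ U)
    (φ : Diffeomorph 𝓘(ℝ, F) 𝓘(ℝ, F) U F ∞),
    ∀ (γ : Γ) (hγ : γ • p = p) (x : U),
      φ ⟨γ • (x : M), hU γ hγ x x.2⟩ = derivRep F p γ (φ x)

end defs

/-- `SL(n,ℤ)` acts smoothly on the smooth `n`-manifold `M`. -/
def SmoothAct (n : ℕ) (M : Type) [TopologicalSpace M] [ChartedSpace (E n) M]
    [MulAction (SLZ n) M] : Prop :=
  SmoothAction (SLZ n) (E n) M

/-- The point `p` is fixed by `SL(n,ℤ)` and no other point has a finite orbit. -/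
def OnlyPeriodic (n : ℕ) {M : Type} [MulAction (SLZ n) M] (p : M) : Prop :=
  (∀ γ : SLZ n, γ • p = p) ∧ ∀ x : M, (MulAction.orbit (SLZ n) x).Finite → x = p

/-- The derivative representation of `SL(n,ℤ)` at `p` is unbounded. -/
def Unbounded (n : ℕ) {M : Type} [TopologicalSpace M] [ChartedSpace (E n) M]
    [MulAction (SLZ n) M] (p : M) : Prop :=
  UnboundedDeriv (SLZ n) (E n) p

/-- On some invariant open neighbourhood of `p` the action of `SL(n,ℤ)` is smoothly conjugate to
the linear action on all of `ℝ^n`. -/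
def GloballyLinear (n : ℕ) {M : Type} [TopologicalSpace M] [ChartedSpace (E n) M]
    [MulAction (SLZ n) M] (p : M) : Prop :=
  GloballyLinearNear (SLZ n) (E n) p

/-- The inclusion of `SL(n,ℤ)` into `SL(n,ℝ)`. -/
def toReal {n : ℕ} : SLZ n →* SL(n, ℝ) :=
  Matrix.SpecialLinearGroup.map (n := Fin n) (Int.castRingHom ℝ)

/-- The linear map of `ℝ^n` given by `g ∈ SL(n,ℝ)`. -/
noncomputable def lin {n : ℕ} (g : SL(n, ℝ)) : E n →L[ℝ] E n :=
  Matrix.toEuclideanCLM (n := Fin n) (𝕜 := ℝ) (g : Matrix (Fin n) (Fin n) ℝ)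

lemma lin_apply {n : ℕ} (A : SL(n, ℝ)) (x : E n) (i : Fin n) :
    lin A x i = ∑ j, (A : Matrix (Fin n) (Fin n) ℝ) i j * x j := by
  simp [lin, Matrix.ofLp_toEuclideanCLM, Matrix.mulVec, dotProduct]

lemma lin_one {n : ℕ} : lin (1 : SL(n, ℝ)) = 1 := by
  simp [lin]

lemma lin_mul {n : ℕ} (A B : SL(n, ℝ)) : lin (A * B) = lin A * lin B := by
  simp [lin]

lemma lin_mul_apply {n : ℕ} (A B : SL(n, ℝ)) (x : E n) : lin (A * B) x = lin A (lin B x) := by
  rw [lin_mul]
  rfl

/-- The nonzero integer vectors. -/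
def Zn0 (n : ℕ) : Set (E n) := {x | (∀ i, x i ∈ Set.range ((↑) : ℤ → ℝ)) ∧ x ≠ 0}

lemma isClosed_Zn0 (n : ℕ) : IsClosed (Zn0 n) := by
  have h : Zn0 n = (⋂ i, {x : E n | x i ∈ Set.range ((↑) : ℤ → ℝ)}) ∩
      ⋃ i, {x : E n | 1 ≤ |x i|} := by
    ext x
    simp only [Zn0, Set.mem_ofPred_eq, Set.mem_inter_iff, Set.mem_iInter, Set.mem_iUnion]
    constructor
    · rintro ⟨h1, h2⟩
      refine ⟨h1, ?_⟩
      by_contra h3
      push Not at h3
      apply h2
      ext i
      obtain ⟨k, hk⟩ := h1 i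
      have h4 := h3 i
      rw [← hk] at h4 ⊢
      have h5 : |k| < 1 := by exact_mod_cast h4
      rw [Int.abs_lt_one_iff] at h5
      simp [h5]
    · rintro ⟨h1, i, hi⟩
      refine ⟨h1, ?_⟩
      rintro rfl
      norm_num at hi
  rw [h]
  apply IsClosed.inter
  · apply isClosed_iInter
    intro i
    exact Int.isClosedEmbedding_coe_real.isClosed_range.preimage (by fun_prop)
  · apply isClosed_iUnion_of_finite
    intro i
    exact isClosed_le continuous_const (by fun_prop)

/-- The manifold: `ℝ^n` without the nonzero integer vectors. -/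
def Mn (n : ℕ) : TopologicalSpace.Opens (E n) := ⟨(Zn0 n)ᶜ, (isClosed_Zn0 n).isOpen_compl⟩

lemma lin_mem_Zn0 {n : ℕ} (γ : SLZ n) {x : E n} (hx : x ∈ Zn0 n) : lin (toReal γ) x ∈ Zn0 n := by
  refine ⟨?_, ?_⟩
  · intro i
    choose k hk using hx.1
    let g : SL(n, ℤ) := γ
    refine ⟨∑ j, (g : Matrix (Fin n) (Fin n) ℤ) i j * k j, ?_⟩
    rw [lin_apply]
    push_cast
    apply Finset.sum_congr rfl
    intro j _
    rw [hk]
    rfl
  · intro h
    apply hx.2
    have : lin ((toReal γ)⁻¹ * (toReal γ)) x = 0 := by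
      rw [lin_mul_apply, h, map_zero]
    rwa [inv_mul_cancel, lin_one] at this

lemma lin_mem_Mn {n : ℕ} (γ : SLZ n) {x : E n} (hx : x ∈ Mn n) : lin (toReal γ) x ∈ Mn n := by
  intro h
  apply hx
  have := lin_mem_Zn0 γ⁻¹ h
  rw [← lin_mul_apply, ← map_mul, inv_mul_cancel, map_one, lin_one] at this
  exact this

noncomputable instance (n : ℕ) : MulAction (SLZ n) (Mn n) where
  smul γ x := ⟨lin (toReal γ) x, lin_mem_Mn γ x.2⟩
  one_smul x := Subtype.ext (by
    change lin (toReal (1 : SLZ n)) (x : E n) = x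
    rw [map_one, lin_one]
    rfl)
  mul_smul γ δ x := Subtype.ext (by
    change lin (toReal (γ * δ)) (x : E n) = lin (toReal γ) (lin (toReal δ) x)
    rw [map_mul, lin_mul_apply])

lemma smul_val {n : ℕ} (γ : SLZ n) (x : Mn n) : ((γ • x : Mn n) : E n) = lin (toReal γ) x := rfl

lemma contMDiff_to_opens {n k : ℕ} {M : Type*} [TopologicalSpace M] [ChartedSpace (E k) M]
    {U : TopologicalSpace.Opens (E n)} {f : M → U} {x : M}
    (h : ContMDiffAt 𝓘(ℝ, E k) 𝓘(ℝ, E n) ∞ (fun y => (f y : E n)) x) :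
    ContMDiffAt 𝓘(ℝ, E k) 𝓘(ℝ, E n) ∞ f x :=
  (ChartedSpace.liftPropWithinAt_subtypeVal_comp_iff f Set.univ x).1 h

lemma contMDiff_smul {n : ℕ} (γ : SLZ n) :
    ContMDiff 𝓘(ℝ, E n) 𝓘(ℝ, E n) ∞ (fun x : Mn n => γ • x) := by
  intro x
  apply contMDiff_to_opens
  change ContMDiffAt 𝓘(ℝ, E n) 𝓘(ℝ, E n) ∞
    (fun y : Mn n => lin (toReal γ) (y : E n)) x
  exact (lin (toReal γ)).contDiff.contMDiff.contMDiffAt.comp x
    contMDiff_subtype_val.contMDiffAt

/-- The fixed point. -/
def p0 (n : ℕ) : Mn n := ⟨0, fun h => h.2 rfl⟩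

lemma smul_p0 {n : ℕ} (γ : SLZ n) : γ • p0 n = p0 n := by
  apply Subtype.ext
  rw [smul_val]
  exact map_zero _

lemma hasMFDerivAt_val {n : ℕ} (U : TopologicalSpace.Opens (E n)) (p : U) :
    HasMFDerivAt 𝓘(ℝ, E n) 𝓘(ℝ, E n) (Subtype.val : U → E n) p
      (ContinuousLinearMap.id ℝ (E n)) := by
  refine ⟨continuous_subtype_val.continuousAt, ?_⟩
  have h2 := TopologicalSpace.Opens.chartAt_subtype_val_symm_eventuallyEq (H := E n) U (x := p)
  have h3 : writtenInExtChartAt 𝓘(ℝ, E n) 𝓘(ℝ, E n) p (Subtype.val : U → E n)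
      =ᶠ[𝓝 (p : E n)] id := by
    filter_upwards [h2] with y hy
    exact hy.symm
  have h4 : extChartAt 𝓘(ℝ, E n) p p = (p : E n) := rfl
  rw [h4]
  have h5 : HasFDerivAt (writtenInExtChartAt 𝓘(ℝ, E n) 𝓘(ℝ, E n) p (Subtype.val : U → E n))
      (ContinuousLinearMap.id ℝ (E n)) (p : E n) :=
    (hasFDerivAt_id (p : E n)).congr_of_eventuallyEq h3
  exact h5.hasFDerivWithinAt

/-- The derivative representation at the fixed point is the standard representation. -/
lemma derivRep_p0 {n : ℕ} (γ : SLZ n) : derivRep (E n) (p0 n) γ = lin (toReal γ) := by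
  have h1 : HasMFDerivAt 𝓘(ℝ, E n) 𝓘(ℝ, E n) (fun x : Mn n => γ • x) (p0 n)
      (mfderiv 𝓘(ℝ, E n) 𝓘(ℝ, E n) (fun x : Mn n => γ • x) (p0 n)) :=
    ((contMDiff_smul γ (p0 n)).mdifferentiableAt (by simp)).hasMFDerivAt
  have h2 := (hasMFDerivAt_val (Mn n) (γ • p0 n)).comp (p0 n) h1
  have h3 : HasMFDerivAt 𝓘(ℝ, E n) 𝓘(ℝ, E n) (fun x : E n => lin (toReal γ) x)
      ((p0 n : Mn n) : E n) (lin (toReal γ)) :=
    (lin (toReal γ)).hasFDerivAt.hasMFDerivAt
  have h4 := h3.comp (p0 n) (hasMFDerivAt_val (Mn n) (p0 n))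
  have h5 := hasMFDerivAt_unique h2 h4
  exact h5

/-- `I + k e_{ij}` in the lattice. -/
def tv {n : ℕ} (i j : Fin n) (h : i ≠ j) (k : ℤ) : SLZ n :=
  (⟨Matrix.transvection i j k, Matrix.det_transvection_of_ne i j h k⟩ : SL(n, ℤ))

lemma lin_tv {n : ℕ} (i j : Fin n) (h : i ≠ j) (k : ℤ) (x : E n) :
    lin (toReal (tv i j h k)) x = x + EuclideanSpace.single i ((k : ℝ) * x j) := by
  ext a
  rw [lin_apply]
  have : ∀ b, (toReal (tv i j h k) : Matrix (Fin n) (Fin n) ℝ) a b =
      (1 : Matrix (Fin n) (Fin n) ℝ) a b + Matrix.single i j (k : ℝ) a b := by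
    intro b
    change ((Matrix.transvection i j k a b : ℤ) : ℝ) = _
    simp only [Matrix.transvection, Matrix.add_apply, Matrix.one_apply, Matrix.single_apply]
    push_cast
    split_ifs <;> simp
  simp only [this, add_mul, Finset.sum_add_distrib, Matrix.one_apply, Matrix.single_apply]
  simp only [ite_mul, one_mul, zero_mul, Finset.sum_ite_eq, Finset.mem_univ, if_true,
    PiLp.add_apply]
  congr 1
  by_cases ha : a = i
  · subst ha
    simp
  · have : ¬ i = a := fun h => ha h.symm
    simp [ha, this]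

lemma fixed_coord {n : ℕ} {i j : Fin n} (h : i ≠ j) {y : E n}
    (hy : lin (toReal (tv i j h 1)) y = y) : y j = 0 := by
  rw [lin_tv] at hy
  have h1 := congrArg (fun z : E n => z i) hy
  simpa using h1

/-- The finite orbits. -/
lemma finite_orbit {n : ℕ} (hn : 2 ≤ n) (x : Mn n)
    (hx : (MulAction.orbit (SLZ n) x).Finite) : x = p0 n := by
  by_contra hne
  have hx0 : (x : E n) ≠ 0 := fun h => hne (Subtype.ext h)
  obtain ⟨j, hj⟩ : ∃ j, (x : E n) j ≠ 0 := by
    by_contra h
    push Not at h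
    exact hx0 (by ext i; simpa using h i)
  obtain ⟨i, hij⟩ : ∃ i : Fin n, i ≠ j := by
    by_cases h0 : j = ⟨0, by omega⟩
    · exact ⟨⟨1, by omega⟩, by rw [h0]; simp [Fin.ext_iff]⟩
    · exact ⟨⟨0, by omega⟩, fun h => h0 h.symm⟩
  have hinj : Function.Injective (fun k : ℤ => tv i j hij k • x) := by
    intro k l hkl
    have h1 := congrArg (fun z : Mn n => (z : E n) i) hkl
    simp only [smul_val, lin_tv] at h1
    simpa [hj] using h1
  exact (Set.infinite_range_of_injective hinj) (hx.subset (by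
    rintro _ ⟨k, rfl⟩
    exact ⟨_, rfl⟩))

lemma unbounded {n : ℕ} (hn : 2 ≤ n) : Unbounded n (p0 n) := by
  rintro ⟨C, hC⟩
  let a : Fin n := ⟨0, by omega⟩
  let b : Fin n := ⟨1, by omega⟩
  have hab : b ≠ a := by simp [a, b]
  obtain ⟨k, hk⟩ := exists_nat_gt C
  have h1 := hC (tv b a hab k) (smul_p0 _)
  rw [derivRep_p0] at h1
  have h2 := (lin (toReal (tv b a hab k))).le_opNorm (EuclideanSpace.single a 1)
  rw [show ‖(EuclideanSpace.single a (1 : ℝ) : E n)‖ = 1 by simp, mul_one] at h2
  have h3 : ‖(lin (toReal (tv b a hab k)) (EuclideanSpace.single a 1)) b‖ ≤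
      ‖lin (toReal (tv b a hab k)) (EuclideanSpace.single a 1)‖ :=
    PiLp.norm_apply_le _ b
  rw [lin_tv] at h3
  simp [hab] at h3
  rw [lin_tv] at h2
  simp at h2
  linarith

theorem not_globally {n : ℕ} (hn : 2 ≤ n) : ¬ GloballyLinear n (p0 n) := by
  rintro ⟨U, hpU, hU, φ, hφ⟩
  let F : E n → E n := fun v => (((φ.symm v : U) : Mn n) : E n)
  have hF : ContDiff ℝ ∞ F := by
    rw [← contMDiff_iff_contDiff]
    exact contMDiff_subtype_val.comp (contMDiff_subtype_val.comp φ.symm.contMDiff)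
  have hFeq : ∀ (γ : SLZ n) (v : E n), F (lin (toReal γ) v) = lin (toReal γ) (F v) := by
    intro γ v
    have h1 := hφ γ (smul_p0 γ) (φ.symm v)
    rw [derivRep_p0, Diffeomorph.apply_symm_apply] at h1
    have h2 : φ.symm (lin (toReal γ) v) =
        ⟨γ • ((φ.symm v : U) : Mn n), hU γ (smul_p0 γ) _ (φ.symm v).2⟩ := by
      rw [← h1, Diffeomorph.symm_apply_apply]
    change (((φ.symm (lin (toReal γ) v) : U) : Mn n) : E n) = _
    rw [h2]
    rfl
  have hFinj : Function.Injective F := by
    intro v w hvw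
    exact φ.symm.injective (Subtype.ext (Subtype.ext hvw))
  have hFav : ∀ v, F v ∉ Zn0 n := fun v => ((φ.symm v : U) : Mn n).2
  let a : Fin n := ⟨0, by omega⟩
  let b : Fin n := ⟨1, by omega⟩
  have hab : b ≠ a := by simp [a, b]
  have hF0 : F 0 = 0 := by
    ext j
    obtain ⟨i, hij⟩ : ∃ i : Fin n, i ≠ j := by
      by_cases h0 : j = a
      · exact ⟨b, by rw [h0]; exact hab⟩
      · exact ⟨a, fun h => h0 h.symm⟩
    have h1 := hFeq (tv i j hij 1) 0
    rw [map_zero] at h1
    exact fixed_coord hij h1.symm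
  let f : ℝ → ℝ := fun t => F (EuclideanSpace.single a t) a
  have hfa : ∀ t, F (EuclideanSpace.single a t) = EuclideanSpace.single a (f t) := by
    intro t
    ext j
    by_cases hj : j = a
    · subst hj
      simp [f]
    · have h1 := hFeq (tv a j (Ne.symm hj) 1) (EuclideanSpace.single a t)
      have h2 : lin (toReal (tv a j (Ne.symm hj) 1)) (EuclideanSpace.single a t) =
          EuclideanSpace.single a t := by
        rw [lin_tv]
        ext i
        simp [hj]
      rw [h2] at h1
      rw [fixed_coord (Ne.symm hj) h1.symm]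
      simp [hj]
  have hf0 : f 0 = 0 := by
    have : (EuclideanSpace.single a (0 : ℝ) : E n) = 0 := by
      ext i
      simp
    simp [f, this, hF0]
  have hfd : DifferentiableAt ℝ f 0 := by
    have h1 : Differentiable ℝ F := hF.differentiable (by simp)
    have h2 : Differentiable ℝ (fun t : ℝ => (EuclideanSpace.single a t : E n)) := by
      have : (fun t : ℝ => (EuclideanSpace.single a t : E n)) =
          fun t : ℝ => t • (EuclideanSpace.single a 1 : E n) := by
        funext t
        ext i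
        simp
      rw [this]
      fun_prop
    have h3 : Differentiable ℝ (fun t : ℝ => F (EuclideanSpace.single a t)) := h1.comp h2
    exact ((differentiable_euclidean.1 h3) a).differentiableAt
  set c := deriv f 0 with hc
  have hder : HasDerivAt f c 0 := hfd.hasDerivAt
  have hkey : ∀ s : ℝ, s ≠ 0 → F (EuclideanSpace.single b s) = EuclideanSpace.single b (c * s) := by
    intro s hs
    have h1 : ∀ k : ℕ, F (EuclideanSpace.single a (s / (k + 1)) +
        EuclideanSpace.single b s) = EuclideanSpace.single a (f (s / (k + 1))) +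
        EuclideanSpace.single b ((k + 1) * f (s / (k + 1))) := by
      intro k
      have hk : ((k : ℝ) + 1) ≠ 0 := by positivity
      have h2 := hFeq (tv b a hab (k + 1)) (EuclideanSpace.single a (s / (k + 1)))
      rw [hfa, lin_tv, lin_tv] at h2
      have e1 : (((k + 1 : ℤ) : ℝ)) * (EuclideanSpace.single a (s / ((k : ℝ) + 1)) : E n) a = s := by
        push_cast
        simp
        field_simp
      rw [e1] at h2
      rw [h2]
      simp
    have hlim0 : Filter.Tendsto (fun k : ℕ => s / ((k : ℝ) + 1)) Filter.atTop (𝓝 0) := by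
      have h2 := (tendsto_one_div_add_atTop_nhds_zero_nat (𝕜 := ℝ)).const_mul s
      rw [mul_zero] at h2
      refine h2.congr fun k => ?_
      rw [mul_one_div]
    have hlimne : Filter.Tendsto (fun k : ℕ => s / ((k : ℝ) + 1)) Filter.atTop (𝓝[≠] 0) := by
      apply tendsto_nhdsWithin_of_tendsto_nhds_of_eventually_within _ hlim0
      filter_upwards with k
      have hk : ((k : ℝ) + 1) ≠ 0 := by positivity
      exact div_ne_zero hs hk
    have hlimf : Filter.Tendsto (fun k : ℕ => ((k : ℝ) + 1) * f (s / ((k : ℝ) + 1))) Filter.atTop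
        (𝓝 (c * s)) := by
      have h2 := (hder.tendsto_slope.comp hlimne).mul_const s
      refine h2.congr fun k => ?_
      have hk : ((k : ℝ) + 1) ≠ 0 := by positivity
      simp only [Function.comp, slope_def_field, hf0, sub_zero]
      field_simp
    have hlimf0 : Filter.Tendsto (fun k : ℕ => f (s / ((k : ℝ) + 1))) Filter.atTop (𝓝 0) := by
      have h2 := hder.continuousAt.tendsto.comp hlim0
      rwa [hf0] at h2
    have hsing : ∀ i : Fin n, Continuous (fun t : ℝ => (EuclideanSpace.single i t : E n)) := by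
      intro i
      have : (fun t : ℝ => (EuclideanSpace.single i t : E n)) =
          fun t : ℝ => t • (EuclideanSpace.single i 1 : E n) := by
        funext t
        ext j
        simp
      rw [this]
      fun_prop
    have hzero : ∀ i : Fin n, (EuclideanSpace.single i (0 : ℝ) : E n) = 0 := by
      intro i
      ext j
      simp
    have hL : Filter.Tendsto (fun k : ℕ => F (EuclideanSpace.single a (s / ((k : ℝ) + 1)) +
        EuclideanSpace.single b s)) Filter.atTop (𝓝 (F (EuclideanSpace.single b s))) := by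
      have h2 : Filter.Tendsto (fun k : ℕ => (EuclideanSpace.single a (s / ((k : ℝ) + 1)) : E n) +
        EuclideanSpace.single b s) Filter.atTop (𝓝 (EuclideanSpace.single b s)) := by
        have h3 := (((hsing a).tendsto 0).comp hlim0).add_const (EuclideanSpace.single b s : E n)
        rw [hzero, zero_add] at h3
        exact h3
      exact (hF.continuous.tendsto _).comp h2
    have hR : Filter.Tendsto (fun k : ℕ => (EuclideanSpace.single a (f (s / ((k : ℝ) + 1))) : E n) +
        EuclideanSpace.single b (((k : ℝ) + 1) * f (s / ((k : ℝ) + 1)))) Filter.atTop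
        (𝓝 (EuclideanSpace.single b (c * s))) := by
      have h3 := (((hsing a).tendsto 0).comp hlimf0).add (((hsing b).tendsto (c * s)).comp hlimf)
      rw [hzero, zero_add] at h3
      exact h3
    refine tendsto_nhds_unique hL (hR.congr fun k => (h1 k).symm)
  have hc0 : c ≠ 0 := by
    intro h
    have h1 := hkey 1 one_ne_zero
    rw [h, zero_mul] at h1
    have h2 : (EuclideanSpace.single b (0 : ℝ) : E n) = 0 := by
      ext i
      simp
    rw [h2, ← hF0] at h1
    have h3 := congrArg (fun z : E n => z b) (hFinj h1)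
    simp at h3
  have h1 := hkey c⁻¹ (inv_ne_zero hc0)
  rw [mul_inv_cancel₀ hc0] at h1
  apply hFav (EuclideanSpace.single b c⁻¹)
  rw [h1]
  refine ⟨?_, ?_⟩
  · intro i
    by_cases hi : i = b
    · subst hi
      exact ⟨1, by simp⟩
    · exact ⟨0, by simp [hi]⟩
  · intro h
    have h3 := congrArg (fun z : E n => z b) h
    simp at h3

lemma countable_Zn0 (n : ℕ) : (Zn0 n).Countable := by
  have h : (Set.range (fun k : Fin n → ℤ => (WithLp.toLp 2 (fun i => (k i : ℝ)) : E n))).Countable :=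
    Set.countable_range _
  refine h.mono ?_
  intro x hx
  choose k hk using hx.1
  refine ⟨k, ?_⟩
  ext i
  exact hk i

lemma connected_Mn {n : ℕ} (hn : 2 ≤ n) : ConnectedSpace (Mn n) := by
  have h1 : IsConnected ((Zn0 n)ᶜ) := by
    apply (countable_Zn0 n).isConnected_compl_of_one_lt_rank
    rw [rank_eq_card_basis (EuclideanSpace.basisFun (Fin n) ℝ).toBasis, Fintype.card_fin]
    exact_mod_cast hn
  exact Subtype.connectedSpace h1

/-- **Main result.** -/
theorem result (n : ℕ) (hn : 2 ≤ n) :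
    ∃ (M : Type) (_ : TopologicalSpace M) (_ : ChartedSpace (E n) M)
      (_ : MulAction (SLZ n) M) (p : M),
      ConnectedSpace M ∧ SmoothAct n M ∧ OnlyPeriodic n p ∧ Unbounded n p ∧
        ¬ GloballyLinear n p :=
  ⟨Mn n, inferInstance, inferInstance, inferInstance, p0 n, connected_Mn hn,
    ⟨inferInstance, inferInstance, inferInstance, contMDiff_smul⟩,
    ⟨smul_p0, fun x hx => finite_orbit hn x hx⟩, unbounded hn, not_globally hn⟩

end Pool.Agent.Results.MP_2392aa_gt.NoGlobalLinear
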